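import Pool.Agent.N963.KL.Stm

set_option autoImplicit false

/-! # Project KL, task GA1: the staircase contour for Gamma averages -/

namespace Pool.Agent.N49.KL

open Complex Filter Topology MeasureTheory Set
open Pool.Agent.N963.KL (EE pt)

lemma line_integrable {φ : ℂ → ℂ} {S : Set ℝ} (hS : MeasurableSet S) {s : ℝ}
    (hd : ∀ x : ℝ, DifferentiableAt ℂ φ ((x : ℂ) + s * I))
    {b : ℝ → ℝ} (hbi : IntegrableOn b S) (hb : ∀ x : ℝ, x ∈ S → ‖φ ((x : ℂ) + s * I)‖ ≤ b x) :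
    IntegrableOn (fun u : ℝ => φ ((u : ℂ) + s * I)) S := by
  have hc : Continuous (fun u : ℝ => φ ((u : ℂ) + s * I)) := by
    rw [continuous_iff_continuousAt]
    intro u
    exact ContinuousAt.comp (f := fun u : ℝ => ((u : ℂ) + s * I)) (hd u).continuousAt (by fun_prop)
  refine hbi.mono' hc.aestronglyMeasurable ?_
  exact (ae_restrict_iff' hS).2 (Eventually.of_forall fun u hu => hb u hu)

lemma side {φ : ℂ → ℂ} {t : ℝ} (ht : 0 ≤ t) {x B : ℝ}
    (hb : ∀ s : ℝ, 0 ≤ s → s ≤ t → ‖φ ((x : ℂ) + s * I)‖ ≤ B) :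
    ‖∫ s in (0 : ℝ)..t, φ ((x : ℂ) + s * I)‖ ≤ B * t := by
  have := intervalIntegral.norm_integral_le_of_norm_le_const (a := (0 : ℝ)) (b := t)
    (f := fun s : ℝ => φ ((x : ℂ) + s * I)) (C := B) (by
      intro s hs
      rw [Set.uIoc_of_le ht] at hs
      exact hb s hs.1.le hs.2)
  rwa [sub_zero, abs_of_nonneg ht] at this

lemma rect {φ : ℂ → ℂ} {t : ℝ} (ht : 0 ≤ t) (hd : ∀ w : ℂ, 0 ≤ w.im → w.im ≤ t → DifferentiableAt ℂ φ w)
    (x1 x2 : ℝ) : (∫ u in x1..x2, φ u) - (∫ u in x1..x2, φ ((u : ℂ) + t * I)) +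
      I * (∫ s in (0 : ℝ)..t, φ ((x2 : ℂ) + s * I)) - I * (∫ s in (0 : ℝ)..t, φ ((x1 : ℂ) + s * I)) = 0 := by
  have h := Complex.integral_boundary_rect_eq_zero_of_differentiableOn φ (x1 : ℂ) ((x2 : ℂ) + t * I) (by
    intro w hw
    have hw2 : w.im ∈ Set.uIcc (0 : ℝ) t := by
      have := hw.2
      simpa using this
    rw [Set.uIcc_of_le ht] at hw2
    exact (hd w hw2.1 hw2.2).differentiableWithinAt)
  simp only [ofReal_re, ofReal_im, add_re, mul_re, I_re, mul_zero, I_im, mul_one, sub_zero, add_zero,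
    add_im, mul_im, zero_add, ofReal_zero, zero_mul, smul_eq_mul] at h
  exact h

lemma rectL {φ : ℂ → ℂ} {a t : ℝ} (ht : 0 ≤ t) (hd : ∀ w : ℂ, 0 ≤ w.im → w.im ≤ t → DifferentiableAt ℂ φ w)
    {b : ℝ → ℝ} (hbi : IntegrableOn b (Iic a)) (hb0 : Tendsto b atBot (𝓝 0))
    (hb : ∀ x s : ℝ, x ≤ a → 0 ≤ s → s ≤ t → ‖φ ((x : ℂ) + s * I)‖ ≤ b x) :
    IntegrableOn (fun u : ℝ => φ u) (Iic a) ∧ ∫ u in Iic a, φ u =
      (∫ u in Iic a, φ ((u : ℂ) + t * I)) - I * ∫ s in (0 : ℝ)..t, φ ((a : ℂ) + s * I) := by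
  have hI : ∀ s : ℝ, 0 ≤ s → s ≤ t → IntegrableOn (fun u : ℝ => φ ((u : ℂ) + s * I)) (Iic a) :=
    fun s hs0 hs => line_integrable measurableSet_Iic (fun x => hd _ (by simp [hs0]) (by simp [hs])) hbi
      fun x hx => hb x s hx hs0 hs
  have hI0 : IntegrableOn (fun u : ℝ => φ u) (Iic a) := by
    have := hI 0 le_rfl ht
    simpa using this
  have hIt := hI t ht le_rfl
  refine ⟨hI0, ?_⟩
  have htop : Tendsto (fun R : ℝ => R) atBot atBot := tendsto_id
  have l1 := intervalIntegral_tendsto_integral_Iic a hI0 htop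
  have l2 := intervalIntegral_tendsto_integral_Iic a hIt htop
  have l4 : Tendsto (fun R : ℝ => ∫ s in (0 : ℝ)..t, φ ((R : ℂ) + s * I)) atBot (𝓝 0) := by
    have h1 : Tendsto (fun R : ℝ => b R * t) atBot (𝓝 0) := by simpa using hb0.mul_const t
    refine squeeze_zero_norm' ?_ h1
    filter_upwards [eventually_le_atBot a] with R hR
    exact side ht fun s hs0 hs => hb R s hR hs0 hs
  have l5 := ((l1.sub l2).add_const (I * (∫ s in (0 : ℝ)..t, φ ((a : ℂ) + s * I)))).sub (l4.const_mul I)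
  have l6 : Tendsto (fun R : ℝ => (0 : ℂ)) (atBot : Filter ℝ) (𝓝 (((∫ u in Iic a, φ u) -
      ∫ u in Iic a, φ ((u : ℂ) + t * I)) + I * (∫ s in (0 : ℝ)..t, φ ((a : ℂ) + s * I)) - I * 0)) := by
    refine l5.congr fun R => ?_
    exact rect ht hd R a
  have l7 := tendsto_nhds_unique l6 tendsto_const_nhds
  linear_combination l7

lemma rectR {φ : ℂ → ℂ} {a t : ℝ} (ht : 0 ≤ t) (hd : ∀ w : ℂ, 0 ≤ w.im → w.im ≤ t → DifferentiableAt ℂ φ w)
    {b : ℝ → ℝ} (hbi : IntegrableOn b (Ioi a)) (hb0 : Tendsto b atTop (𝓝 0))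
    (hb : ∀ x s : ℝ, a ≤ x → 0 ≤ s → s ≤ t → ‖φ ((x : ℂ) + s * I)‖ ≤ b x) :
    IntegrableOn (fun u : ℝ => φ u) (Ioi a) ∧ ∫ u in Ioi a, φ u =
      (∫ u in Ioi a, φ ((u : ℂ) + t * I)) + I * ∫ s in (0 : ℝ)..t, φ ((a : ℂ) + s * I) := by
  have hI : ∀ s : ℝ, 0 ≤ s → s ≤ t → IntegrableOn (fun u : ℝ => φ ((u : ℂ) + s * I)) (Ioi a) :=
    fun s hs0 hs => line_integrable measurableSet_Ioi (fun x => hd _ (by simp [hs0]) (by simp [hs])) hbi
      fun x hx => hb x s (le_of_lt hx) hs0 hs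
  have hI0 : IntegrableOn (fun u : ℝ => φ u) (Ioi a) := by
    have := hI 0 le_rfl ht
    simpa using this
  have hIt := hI t ht le_rfl
  refine ⟨hI0, ?_⟩
  have htop : Tendsto (fun R : ℝ => R) atTop atTop := tendsto_id
  have l1 := intervalIntegral_tendsto_integral_Ioi a hI0 htop
  have l2 := intervalIntegral_tendsto_integral_Ioi a hIt htop
  have l4 : Tendsto (fun R : ℝ => ∫ s in (0 : ℝ)..t, φ ((R : ℂ) + s * I)) atTop (𝓝 0) := by
    have h1 : Tendsto (fun R : ℝ => b R * t) atTop (𝓝 0) := by simpa using hb0.mul_const t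
    refine squeeze_zero_norm' ?_ h1
    filter_upwards [eventually_ge_atTop a] with R hR
    exact side ht fun s hs0 hs => hb R s hR hs0 hs
  have l5 := ((l1.sub l2).add (l4.const_mul I)).sub_const (I * (∫ s in (0 : ℝ)..t, φ ((a : ℂ) + s * I)))
  have l6 : Tendsto (fun R : ℝ => (0 : ℂ)) (atTop : Filter ℝ) (𝓝 (((∫ u in Ioi a, φ u) -
      ∫ u in Ioi a, φ ((u : ℂ) + t * I)) + I * 0 - I * (∫ s in (0 : ℝ)..t, φ ((a : ℂ) + s * I)))) := by
    refine l5.congr fun R => ?_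
    exact rect ht hd a R
  have l7 := tendsto_nhds_unique l6 tendsto_const_nhds
  linear_combination l7

lemma norm_EE (s : ℂ) (x y : ℝ) : ‖EE s ((x : ℂ) + y * I)‖ =
    Real.exp (s.re * x - s.im * y - Real.exp x * Real.cos y) := by
  unfold EE
  rw [Complex.norm_exp]
  congr 1
  simp [Complex.exp_re]

/-- elementary: the double exponential wins -/
lemma dblexp (c M σ : ℝ) (hc : 0 < c) (hM : 0 ≤ M) (hσ : 0 ≤ σ) : ∃ K : ℝ, ∀ x : ℝ, 0 ≤ x →
    M * x ^ 2 + σ * x - c * Real.exp x ≤ K - x := by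
  obtain ⟨T, hT⟩ : ∃ T : ℝ, T = 6 * (M + σ + 1) / c + 1 := ⟨_, rfl⟩
  have hT1 : 1 ≤ T := by
    rw [hT]
    have : 0 ≤ 6 * (M + σ + 1) / c := by positivity
    linarith
  refine ⟨(M + σ + 1) * T ^ 2, fun x hx => ?_⟩
  have h3 : x ^ 3 / 6 ≤ Real.exp x := by
    have := Real.pow_div_factorial_le_exp x hx 3
    norm_num [Nat.factorial] at this
    exact this
  have h4 : c * (x ^ 3 / 6) ≤ c * Real.exp x := mul_le_mul_of_nonneg_left h3 hc.le
  have h0 : 0 < Real.exp x := Real.exp_pos x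
  rcases le_total x T with h | h
  · have h5 : x ^ 2 ≤ T ^ 2 := pow_le_pow_left₀ hx h 2
    have h6 : x ≤ T ^ 2 := by nlinarith
    have h7 : M * x ^ 2 ≤ M * T ^ 2 := mul_le_mul_of_nonneg_left h5 hM
    have h8 : (σ + 1) * x ≤ (σ + 1) * T ^ 2 := mul_le_mul_of_nonneg_left h6 (by linarith)
    have h9 : 0 ≤ c * Real.exp x := by positivity
    nlinarith
  · have h5 : 1 ≤ x := hT1.trans h
    have h6 : 6 * (M + σ + 1) / c ≤ x := by linarith
    have h7 : 6 * (M + σ + 1) ≤ x * c := by rwa [div_le_iff₀ hc] at h6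
    have h8 : (M + σ + 1) * x ^ 2 ≤ c * (x ^ 3 / 6) := by
      have : 6 * (M + σ + 1) * x ^ 2 ≤ x * c * x ^ 2 := mul_le_mul_of_nonneg_right h7 (by positivity)
      nlinarith
    have h9 : (σ + 1) * x ≤ (σ + 1) * x ^ 2 := mul_le_mul_of_nonneg_left (by nlinarith) (by linarith)
    have h10 : 0 ≤ (M + σ + 1) * T ^ 2 := by positivity
    nlinarith

lemma shiftIic (F : ℝ → ℂ) (a : ℝ) : ∫ r in Iic (0 : ℝ), F (a + r) = ∫ x in Iic a, F x := by
  have h := (measurePreserving_add_left (volume : Measure ℝ) a).setIntegral_preimage_emb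
    (measurableEmbedding_addLeft a) F (Iic a)
  rw [Set.preimage_const_add_Iic, sub_self] at h
  exact h

lemma shiftIoi (F : ℝ → ℂ) (a : ℝ) : ∫ r in Ioi (0 : ℝ), F (a + r) = ∫ x in Ioi a, F x := by
  have h := (measurePreserving_add_left (volume : Measure ℝ) a).setIntegral_preimage_emb
    (measurableEmbedding_addLeft a) F (Ioi a)
  rw [Set.preimage_const_add_Ioi, sub_self] at h
  exact h

/-- **GA1** -/
theorem ga1 : Pool.Agent.N963.KL.S_GA1 := by
  intro s R M X h hs hX hh hh5 hR hb1 hb2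
  have hpi := Real.pi_gt_three
  have hpi2 := Real.pi_lt_d2
  obtain ⟨a, ha⟩ : ∃ a : ℝ, a = Real.log X := ⟨_, rfl⟩
  have ha0 : 0 ≤ a := by rw [ha]; exact Real.log_nonneg hX
  have hea : Real.exp a = X := by rw [ha]; exact Real.exp_log (by linarith)
  have hM : 0 ≤ M := by
    have := hb2 0 (by simp) (by simp) (by simp)
    exact (norm_nonneg _).trans this
  obtain ⟨f, hf⟩ : ∃ f : ℂ → ℂ, f = fun v => EE s v * R v := ⟨_, rfl⟩
  have hfd : ∀ v : ℂ, |v.im| < Real.pi → DifferentiableAt ℂ f v := by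
    intro v hv
    rw [hf]
    refine DifferentiableAt.mul ?_ (hR v hv)
    unfold EE
    fun_prop
  have hd1 : ∀ w : ℂ, 0 ≤ w.im → w.im ≤ Real.pi / 2 + h → DifferentiableAt ℂ f w := fun w h1 h2 =>
    hfd w (by rw [abs_of_nonneg h1]; linarith)
  have hd2 : ∀ w : ℂ, 0 ≤ w.im → w.im ≤ Real.pi / 2 - h → DifferentiableAt ℂ f w := fun w h1 h2 =>
    hfd w (by rw [abs_of_nonneg h1]; linarith)
  -- left bound
  have hbL : ∀ x y : ℝ, x ≤ a → 0 ≤ y → y ≤ Real.pi / 2 + h → ‖f ((x : ℂ) + y * I)‖ ≤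
      M * Real.exp (M * a ^ 2) * Real.exp (2 * |s.im| + X) * Real.exp (s.re * x) := by
    intro x y hx hy0 hy
    have hy2 : y ≤ 2 := by linarith
    rw [hf]
    simp only [norm_mul, norm_EE]
    have h1 : Real.exp (s.re * x - s.im * y - Real.exp x * Real.cos y) ≤
        Real.exp (2 * |s.im| + X) * Real.exp (s.re * x) := by
      rw [← Real.exp_add]
      apply Real.exp_le_exp.2
      have h2 : -(s.im * y) ≤ 2 * |s.im| := by
        calc -(s.im * y) ≤ |s.im * y| := neg_le_abs _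
          _ = |s.im| * y := by rw [abs_mul, abs_of_nonneg hy0]
          _ ≤ |s.im| * 2 := mul_le_mul_of_nonneg_left hy2 (abs_nonneg _)
          _ = 2 * |s.im| := by ring
      have h3 : -(Real.exp x * Real.cos y) ≤ X := by
        calc -(Real.exp x * Real.cos y) ≤ |Real.exp x * Real.cos y| := neg_le_abs _
          _ = Real.exp x * |Real.cos y| := by rw [abs_mul, abs_of_nonneg (Real.exp_pos x).le]
          _ ≤ Real.exp x * 1 := mul_le_mul_of_nonneg_left (Real.abs_cos_le_one y) (Real.exp_pos x).le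
          _ ≤ X := by rw [mul_one, ← hea]; exact Real.exp_le_exp.2 hx
      linarith
    have h4 : ‖R ((x : ℂ) + y * I)‖ ≤ M * Real.exp (M * a ^ 2) := by
      rcases le_total x 0 with h5 | h5
      · have h6 := hb2 ((x : ℂ) + y * I) (by simpa using hy0) (by simpa using hy2) (by simpa using h5)
        refine h6.trans ?_
        have : 1 ≤ Real.exp (M * a ^ 2) := Real.one_le_exp (by positivity)
        nlinarith
      · have h6 := hb1 ((x : ℂ) + y * I) (by simpa using hy0) (by simpa using hy2)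
        refine h6.trans (mul_le_mul_of_nonneg_left (Real.exp_le_exp.2 ?_) hM)
        have h7 : ((x : ℂ) + y * I).re = x := by simp
        rw [h7]
        exact mul_le_mul_of_nonneg_left (pow_le_pow_left₀ h5 hx 2) hM
    calc Real.exp (s.re * x - s.im * y - Real.exp x * Real.cos y) * ‖R ((x : ℂ) + y * I)‖
        ≤ (Real.exp (2 * |s.im| + X) * Real.exp (s.re * x)) * (M * Real.exp (M * a ^ 2)) :=
          mul_le_mul h1 h4 (norm_nonneg _) (by positivity)
      _ = _ := by ring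
  -- right bound
  have hc : 0 < Real.sin h := Real.sin_pos_of_pos_of_lt_pi hh (by linarith)
  obtain ⟨K, hK⟩ := dblexp (Real.sin h) M s.re hc hM hs.le
  have hbR : ∀ x y : ℝ, a ≤ x → 0 ≤ y → y ≤ Real.pi / 2 - h → ‖f ((x : ℂ) + y * I)‖ ≤
      M * Real.exp (2 * |s.im| + K) * Real.exp (-x) := by
    intro x y hx hy0 hy
    have hx0 : 0 ≤ x := ha0.trans hx
    have hy2 : y ≤ 2 := by linarith
    rw [hf]
    simp only [norm_mul, norm_EE]
    have h6 := hb1 ((x : ℂ) + y * I) (by simpa using hy0) (by simpa using hy2)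
    have h7 : ((x : ℂ) + y * I).re = x := by simp
    rw [h7] at h6
    have h8 : Real.sin h ≤ Real.cos y := by
      rw [← Real.cos_pi_div_two_sub]
      exact Real.cos_le_cos_of_nonneg_of_le_pi hy0 (by linarith) hy
    have h2 : -(s.im * y) ≤ 2 * |s.im| := by
      calc -(s.im * y) ≤ |s.im * y| := neg_le_abs _
        _ = |s.im| * y := by rw [abs_mul, abs_of_nonneg hy0]
        _ ≤ |s.im| * 2 := mul_le_mul_of_nonneg_left hy2 (abs_nonneg _)
        _ = 2 * |s.im| := by ring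
    have h9 : Real.sin h * Real.exp x ≤ Real.exp x * Real.cos y := by
      rw [mul_comm]
      exact mul_le_mul_of_nonneg_left h8 (Real.exp_pos x).le
    calc Real.exp (s.re * x - s.im * y - Real.exp x * Real.cos y) * ‖R ((x : ℂ) + y * I)‖
        ≤ Real.exp (s.re * x - s.im * y - Real.exp x * Real.cos y) * (M * Real.exp (M * x ^ 2)) :=
          mul_le_mul_of_nonneg_left h6 (Real.exp_pos _).le
      _ = M * Real.exp (M * x ^ 2 + (s.re * x - s.im * y - Real.exp x * Real.cos y)) := by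
          rw [Real.exp_add]; ring
      _ ≤ M * Real.exp (2 * |s.im| + K + -x) := by
          refine mul_le_mul_of_nonneg_left (Real.exp_le_exp.2 ?_) hM
          have := hK x hx0
          linarith
      _ = _ := by rw [Real.exp_add]; ring
  have hiL : IntegrableOn (fun x : ℝ => M * Real.exp (M * a ^ 2) * Real.exp (2 * |s.im| + X) *
      Real.exp (s.re * x)) (Iic a) := by
    exact (integrableOn_exp_mul_Iic hs a).const_mul _
  have hiR : IntegrableOn (fun x : ℝ => M * Real.exp (2 * |s.im| + K) * Real.exp (-x)) (Ioi a) :=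
    (integrableOn_exp_neg_Ioi a).const_mul _
  have htL : Tendsto (fun x : ℝ => M * Real.exp (M * a ^ 2) * Real.exp (2 * |s.im| + X) *
      Real.exp (s.re * x)) atBot (𝓝 0) := by
    have h1 : Tendsto (fun x : ℝ => Real.exp (s.re * x)) atBot (𝓝 0) :=
      Real.tendsto_exp_atBot.comp (tendsto_id.const_mul_atBot hs)
    simpa using h1.const_mul (M * Real.exp (M * a ^ 2) * Real.exp (2 * |s.im| + X))
  have htR : Tendsto (fun x : ℝ => M * Real.exp (2 * |s.im| + K) * Real.exp (-x)) atTop (𝓝 0) := by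
    have h1 : Tendsto (fun x : ℝ => Real.exp (-x)) atTop (𝓝 0) :=
      Real.tendsto_exp_neg_atTop_nhds_zero
    simpa using h1.const_mul (M * Real.exp (2 * |s.im| + K))
  obtain ⟨iL, eL⟩ := rectL (by linarith) hd1 hiL htL hbL
  obtain ⟨iR, eR⟩ := rectR (by linarith) hd2 hiR htR hbR
  have hint : Integrable (fun v : ℝ => f v) := by
    rw [← integrableOn_univ, ← Iic_union_Ioi (a := a)]
    exact iL.union iR
  have hsum : ∫ v : ℝ, f v = (∫ u in Iic a, f u) + ∫ u in Ioi a, f u := by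
    rw [← setIntegral_union (Iic_disjoint_Ioi le_rfl) measurableSet_Ioi iL iR, Iic_union_Ioi,
      setIntegral_univ]
  have hfE : ∀ v : ℂ, EE s v * R v = f v := fun v => by rw [hf]
  simp only [hfE]
  refine ⟨hint, ?_⟩
  have e1 : ∫ r in Iic (0 : ℝ), f (pt X r (Real.pi / 2 + h)) =
      ∫ u in Iic a, f ((u : ℂ) + ((Real.pi / 2 + h : ℝ) : ℂ) * I) := by
    rw [← shiftIic (fun u : ℝ => f ((u : ℂ) + ((Real.pi / 2 + h : ℝ) : ℂ) * I)) a, ha]
    rfl
  have e2 : ∫ r in Ioi (0 : ℝ), f (pt X r (Real.pi / 2 - h)) =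
      ∫ u in Ioi a, f ((u : ℂ) + ((Real.pi / 2 - h : ℝ) : ℂ) * I) := by
    rw [← shiftIoi (fun u : ℝ => f ((u : ℂ) + ((Real.pi / 2 - h : ℝ) : ℂ) * I)) a, ha]
    rfl
  have e3 : ∫ θ in (Real.pi / 2 - h)..(Real.pi / 2 + h), f (pt X 0 θ) =
      (∫ θ in (0 : ℝ)..(Real.pi / 2 + h), f ((a : ℂ) + θ * I)) -
        ∫ θ in (0 : ℝ)..(Real.pi / 2 - h), f ((a : ℂ) + θ * I) := by
    have hpt : ∀ θ : ℝ, f (pt X 0 θ) = f ((a : ℂ) + θ * I) := by
      intro θ
      unfold pt
      rw [add_zero, ← ha]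
    simp only [hpt]
    have hci : ∀ t : ℝ, 0 ≤ t → t ≤ Real.pi / 2 + h →
        IntervalIntegrable (fun θ : ℝ => f ((a : ℂ) + θ * I)) volume 0 t := by
      intro t ht0 ht
      apply ContinuousOn.intervalIntegrable
      intro θ hθ
      rw [Set.uIcc_of_le ht0] at hθ
      have h1 : ContinuousAt f ((a : ℂ) + θ * I) :=
        (hd1 _ (by simpa using hθ.1) (by simpa using hθ.2.trans ht)).continuousAt
      exact (ContinuousAt.comp (f := fun θ : ℝ => ((a : ℂ) + θ * I)) h1 (by fun_prop)).continuousWithinAt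
    rw [intervalIntegral.integral_interval_sub_left (hci _ (by linarith) le_rfl)
      (hci _ (by linarith) (by linarith))]
  rw [hsum, eL, eR, e1, e2, e3]
  ring

end Pool.Agent.N49.KL
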